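import Pool.Agent.MP_961ca8_al.H18.Ring

/-!
Modules N and Z: `TT w μ` is Noetherian, and its non-zero-divisors.
-/

namespace Pool.Agent.MP_961ca8_al.H28

open MvPolynomial H18

lemma noeth_of_le {R B : Type} [CommRing R] [CommRing B] [Algebra R B] [IsNoetherianRing R]
    (T : Subring B) (hT : ∀ r : R, algebraMap R B r ∈ T) (E : Subalgebra R B)
    (hE : (Subalgebra.toSubmodule E).FG) (hle : ∀ x ∈ T, x ∈ E) : IsNoetherianRing T := by
  let T' : Subalgebra R B :=
    { T.toSubsemiring with algebraMap_mem' := hT }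
  have h1 : IsNoetherian R (Subalgebra.toSubmodule E) := isNoetherian_of_fg_of_noetherian _ hE
  have h2 : IsNoetherian R (Subalgebra.toSubmodule T') :=
    isNoetherian_of_le (t := Subalgebra.toSubmodule E) (fun x hx => hle x hx)
  have h3 : IsNoetherian R T' := h2
  have h4 : IsNoetherianRing T' := isNoetherian_of_tower R h3
  exact h4

section N

variable {D : Type} [CommRing D] (w : D) (μ : Fin 3 → D)

noncomputable def gens : Fin 3 × Fin 3 → TT w μ := fun x =>
  ![yT w μ x.2, aT w μ x.2 1,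
    con w μ 1 1 one_pos one_pos (X x.2 ^ 2) (isHomogeneous_X_pow _ _)] x.1

noncomputable def gmap : MvPolynomial (Fin 3 × Fin 3) D →+* Pm D × T3 w :=
  (TT w μ).subtype.comp (eval₂Hom (cst w μ) (gens w μ))

noncomputable def z0 (j : Fin 3) : Pm D := Polynomial.monomial 1 (Polynomial.monomial 0 (X j))
noncomputable def z1 (j : Fin 3) : Pm D := Polynomial.monomial 0 (Polynomial.monomial 1 (X j))

lemma gmap_C (d : D) : gmap w μ (C d) =
    (Polynomial.C (Polynomial.C (C d)), mk3 w (C (C d))) := by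
  simp only [gmap, RingHom.comp_apply, coe_eval₂Hom, eval₂_C]
  rfl

lemma gmap_y (j : Fin 3) : gmap w μ (X (0, j)) =
    (z1 j + Polynomial.C (Polynomial.C (C (μ j))) * z0 j, mk3 w (C (X j))) := by
  simp only [gmap, RingHom.comp_apply, coe_eval₂Hom, eval₂_X]
  refine Prod.ext ?_ rfl
  show (yT w μ j).1.1 = _
  rw [yT, sec_fst, psi_X]
  simp only [z0, z1, Polynomial.C_mul_monomial]

lemma gmap_a (j : Fin 3) : gmap w μ (X (1, j)) = (0, mk3 w (X j)) := by
  simp only [gmap, RingHom.comp_apply, coe_eval₂Hom, eval₂_X]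
  refine Prod.ext rfl ?_
  show (aT w μ j 1).1.2 = _
  rw [aT_snd, mul_one]

lemma gmap_e (j : Fin 3) : gmap w μ (X (2, j)) = (z0 j * z1 j, 0) := by
  simp only [gmap, RingHom.comp_apply, coe_eval₂Hom, eval₂_X]
  refine Prod.ext ?_ rfl
  show Polynomial.monomial 1 (Polynomial.monomial 1 (X j ^ 2)) = z0 j * z1 j
  simp only [z0, z1, Polynomial.monomial_mul_monomial, pow_two]

lemma mono_mem (E1 : Subring (Pm D)) (hC : ∀ d : D, Polynomial.C (Polynomial.C (C d)) ∈ E1)
    (h0 : ∀ j, z0 j ∈ E1) (h1 : ∀ j, z1 j ∈ E1) :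
    ∀ (n i j : ℕ) (β : Fin 3 →₀ ℕ) (d : D), i + j = n → β.degree = n →
      (Polynomial.monomial i (Polynomial.monomial j (monomial β d)) : Pm D) ∈ E1 := by
  intro n
  induction n with
  | zero =>
    intro i j β d hij hβ
    have hi : i = 0 := by omega
    have hj : j = 0 := by omega
    have hβ0 : β = 0 := (Finsupp.degree_eq_zero_iff β).mp hβ
    subst hi hj hβ0
    exact hC d
  | succ n ih =>
    intro i j β d hij hβ
    have hβ0 : β ≠ 0 := by
      intro h; rw [h] at hβ; simp at hβ
    obtain ⟨k, hk⟩ := Finsupp.ne_iff.mp hβ0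
    have hk' : Finsupp.single k 1 ≤ β := by
      rw [Finsupp.single_le_iff]; simp at hk; omega
    obtain ⟨β', rfl⟩ := exists_add_of_le hk'
    have hβ' : β'.degree = n := by
      rw [map_add, Finsupp.degree_single] at hβ; omega
    have hm : (monomial (Finsupp.single k 1 + β') d : BB D) = X k * monomial β' d := by
      rw [X, monomial_mul, one_mul]
    rw [hm]
    rcases Nat.eq_zero_or_pos i with hi | hi
    · obtain ⟨j', rfl⟩ : ∃ j', j = 1 + j' := ⟨j - 1, by omega⟩
      have := E1.mul_mem (h1 k) (ih i j' β' d (by omega) hβ')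
      rw [z1, Polynomial.monomial_mul_monomial, Polynomial.monomial_mul_monomial, zero_add] at this
      exact this
    · obtain ⟨i', rfl⟩ : ∃ i', i = 1 + i' := ⟨i - 1, by omega⟩
      have := E1.mul_mem (h0 k) (ih i' j β' d (by omega) hβ')
      rw [z0, Polynomial.monomial_mul_monomial, Polynomial.monomial_mul_monomial, zero_add] at this
      exact this

lemma bal_mem (E1 : Subring (Pm D)) (hC : ∀ d : D, Polynomial.C (Polynomial.C (C d)) ∈ E1)
    (h0 : ∀ j, z0 j ∈ E1) (h1 : ∀ j, z1 j ∈ E1) (t : Pm D) (ht : Bal t) : t ∈ E1 := by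
  rw [t.as_sum_support]
  refine E1.sum_mem fun i _ => ?_
  rw [(t.coeff i).as_sum_support, map_sum]
  refine E1.sum_mem fun j _ => ?_
  rw [((t.coeff i).coeff j).as_sum, map_sum, map_sum]
  refine E1.sum_mem fun β hβ => ?_
  refine mono_mem E1 hC h0 h1 (i + j) i j β _ rfl ?_
  have := ht i j (mem_support_iff.mp hβ)
  rwa [Finsupp.degree_eq_weight_one]

end N

lemma noeth_prod {R B1 B2 : Type} [CommRing R] [CommRing B1] [CommRing B2] [IsNoetherianRing R]
    (g : R →+* B1 × B2) (T : Subring (B1 × B2)) (hT : ∀ r, g r ∈ T) (γ : Fin 3 → B1)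
    (hint : ∀ j, ∃ a b : R, γ j ^ 2 - ((g a).1 * γ j - (g b).1) = 0 ∧ (g b).2 = 0)
    (h1 : ∀ E1 : Subring B1, (∀ r, (g r).1 ∈ E1) → (∀ j, γ j ∈ E1) → ∀ x ∈ T, x.1 ∈ E1)
    (h2 : ∀ E2 : Subring B2, (∀ r, (g r).2 ∈ E2) → ∀ τ, τ ∈ E2) : IsNoetherianRing T := by
  let _ : Algebra R (B1 × B2) := RingHom.toAlgebra (R := R) (S := B1 × B2) g
  have halg : ∀ r : R, algebraMap R (B1 × B2) r = g r := fun _ => rfl
  let β : Fin 3 → B1 × B2 := fun j => (γ j, 0)
  let E : Subalgebra R (B1 × B2) := Algebra.adjoin R (insert (1, 0) (Set.range β))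
  have hε : ((1, 0) : B1 × B2) ∈ E := Algebra.subset_adjoin (Set.mem_insert _ _)
  have hβ : ∀ j, β j ∈ E := fun j => Algebra.subset_adjoin (Set.mem_insert_of_mem _ ⟨j, rfl⟩)
  have hg : ∀ r : R, g r ∈ E := fun r => E.algebraMap_mem r
  have hfg : (Subalgebra.toSubmodule E).FG := by
    refine fg_adjoin_of_finite ((Set.finite_range β).insert (1, 0)) ?_
    rintro x (rfl | ⟨j, rfl⟩)
    · refine ⟨Polynomial.X ^ 2 - Polynomial.X, ?_, ?_⟩
      · exact Polynomial.monic_X_pow_sub (Polynomial.degree_X_le.trans_lt (by norm_num))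
      · rw [Polynomial.eval₂_sub, Polynomial.eval₂_X_pow, Polynomial.eval₂_X]
        exact Prod.ext (by simp) (by simp)
    · obtain ⟨a, b, hab, hb⟩ := hint j
      refine ⟨Polynomial.X ^ 2 - (Polynomial.C a * Polynomial.X - Polynomial.C b), ?_, ?_⟩
      · refine Polynomial.monic_X_pow_sub ?_
        refine lt_of_le_of_lt (b := 1) ?_ (by norm_num)
        refine (Polynomial.degree_sub_le _ _).trans (max_le ?_ ?_)
        · exact Polynomial.degree_C_mul_X_le _
        · exact Polynomial.degree_C_le.trans (by norm_num)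
      · rw [Polynomial.eval₂_sub, Polynomial.eval₂_X_pow, Polynomial.eval₂_sub,
          Polynomial.eval₂_mul, Polynomial.eval₂_C, Polynomial.eval₂_C, Polynomial.eval₂_X,
          halg, halg]
        refine Prod.ext ?_ ?_
        · simpa [β] using hab
        · simp [β, hb]
  let E1 : Subring B1 :=
    { carrier := {t | ((t, 0) : B1 × B2) ∈ E}
      mul_mem' := fun {a b} ha hb => by
        have := E.mul_mem ha hb
        simpa using this
      one_mem' := hε
      add_mem' := fun {a b} ha hb => by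
        have := E.add_mem ha hb
        simpa using this
      zero_mem' := E.zero_mem
      neg_mem' := fun {a} ha => by
        have := E.neg_mem ha
        simpa using this }
  let E2 : Subring B2 :=
    { carrier := {t | ((0, t) : B1 × B2) ∈ E}
      mul_mem' := fun {a b} ha hb => by
        have := E.mul_mem ha hb
        simpa using this
      one_mem' := by
        have := E.sub_mem E.one_mem hε
        have e : (1 : B1 × B2) - (1, 0) = (0, 1) := Prod.ext (by simp) (by simp)
        rwa [e] at this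
      add_mem' := fun {a b} ha hb => by
        have := E.add_mem ha hb
        simpa using this
      zero_mem' := E.zero_mem
      neg_mem' := fun {a} ha => by
        have := E.neg_mem ha
        simpa using this }
  have hfst : ∀ x : B1 × B2, x ∈ E → x.1 ∈ E1 := by
    intro x hx
    have := E.mul_mem hε hx
    have e : (1, 0) * x = (x.1, 0) := Prod.ext (by simp) (by simp)
    rwa [e] at this
  have hsnd : ∀ x : B1 × B2, x ∈ E → x.2 ∈ E2 := by
    intro x hx
    have := E.sub_mem hx (E.mul_mem hε hx)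
    have e : x - (1, 0) * x = (0, x.2) := Prod.ext (by simp) (by simp)
    rwa [e] at this
  refine noeth_of_le (R := R) T hT E hfg fun x hx => ?_
  have a1 : ((x.1, 0) : B1 × B2) ∈ E := h1 E1 (fun r => hfst _ (hg r)) hβ x hx
  have a2 : ((0, x.2) : B1 × B2) ∈ E := h2 E2 (fun r => hsnd _ (hg r)) x.2
  have := E.add_mem a1 a2
  have e : ((x.1, 0) : B1 × B2) + (0, x.2) = x := Prod.ext (by simp) (by simp)
  rwa [e] at this

theorem noeth : NoethStmt := by
  intro D _ _ w μ hμ
  refine noeth_prod (gmap w μ) (TT w μ) (fun r => (eval₂Hom (cst w μ) (gens w μ) r).2) z1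
    (fun j => ⟨X (0, j), C (μ j) * X (2, j), ?_, ?_⟩) (fun E1 hg hz1 x hx => ?_)
    (fun E2 hg τ => ?_)
  · rw [map_mul, gmap_C, gmap_y, gmap_e, Prod.fst_mul]
    ring
  · rw [map_mul, gmap_e, Prod.snd_mul, mul_zero]
  · have hC1 : ∀ d : D, (Polynomial.C (Polynomial.C (C d)) : Pm D) ∈ E1 := fun d => by
      have := hg (C d)
      rwa [gmap_C] at this
    refine bal_mem E1 hC1 (fun j => ?_) hz1 x.1 hx.1
    have h1 := hg (X (0, j))
    rw [gmap_y] at h1
    obtain ⟨ν, hν⟩ := (hμ j).exists_left_inv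
    have h2 := E1.mul_mem (hC1 ν) (E1.sub_mem h1 (hz1 j))
    have e : ∀ a b : Pm D, a + b - a = b := fun a b => by ring
    simp only at h2
    rwa [e, ← mul_assoc, ← map_mul, ← map_mul, ← map_mul, hν, map_one, map_one, map_one,
      one_mul] at h2
  · obtain ⟨P, rfl⟩ := mk3_surj w τ
    induction P using MvPolynomial.induction_on with
    | C b =>
      induction b using MvPolynomial.induction_on with
      | C d =>
        have := hg (C d)
        rwa [gmap_C] at this
      | add a b ha hb => rw [map_add, map_add]; exact E2.add_mem ha hb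
      | mul_X a j ha =>
        rw [map_mul, map_mul]
        refine E2.mul_mem ha ?_
        have := hg (X (0, j))
        rwa [gmap_y] at this
    | add a b ha hb => rw [map_add]; exact E2.add_mem ha hb
    | mul_X a j ha =>
      rw [map_mul]
      refine E2.mul_mem ha ?_
      have := hg (X (1, j))
      rwa [gmap_a] at this

section Z

variable {D : Type} [CommRing D]

lemma coeff_lin (a b c : BB D) :
    coeff (Finsupp.single 0 1) (C a * X 0 + C b * X 1 + C c * X 2 : P3 D) = a ∧
    coeff (Finsupp.single 1 1) (C a * X 0 + C b * X 1 + C c * X 2 : P3 D) = b := by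
  constructor <;> simp [coeff_X, Finsupp.single_eq_single_iff]

lemma coeff_xi : coeff (Finsupp.single 1 1) (xi D) = 1 := by
  simp [xi, coeff_X, Finsupp.single_eq_single_iff]

lemma FF_prime [IsDomain D] [UniqueFactorizationMonoid D] {w : D} (hw : Prime w) :
    Prime (FF w) := by
  rw [← irreducible_iff_prime]
  have hc := coeff_lin (C w) (xi D) (eta D)
  have hCw : Prime (C w : BB D) := (MvPolynomial.prime_C_iff (Fin 3)).mpr hw
  refine irreducible_of_totalDegree_eq_one ?_ ?_
  · apply le_antisymm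
    · unfold FF
      refine (totalDegree_add _ _).trans (max_le ((totalDegree_add _ _).trans (max_le ?_ ?_)) ?_)
      all_goals exact (totalDegree_mul _ _).trans (by simp)
    · have hm : Finsupp.single (0 : Fin 3) 1 ∈ (FF w).support := by
        rw [mem_support_iff, FF, hc.1]; exact hCw.ne_zero
      have := le_totalDegree hm
      simpa using this
  · intro x hx
    have h0 := hx (Finsupp.single 0 1)
    have h1 := hx (Finsupp.single 1 1)
    rw [FF, hc.1] at h0
    rw [FF, hc.2] at h1
    rcases (dvd_prime_pow (q := x) hCw 1).mp (by rwa [pow_one]) with ⟨i, hi, hass⟩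
    interval_cases i
    · rw [pow_zero] at hass; exact associated_one_iff_isUnit.mp hass
    · rw [pow_one] at hass
      have h2 : (C w : BB D) ∣ xi D := hass.symm.dvd.trans h1
      have h3 := (C_dvd_iff_dvd_coeff _ _).mp h2 (Finsupp.single 1 1)
      rw [coeff_xi] at h3
      exact absurd (isUnit_of_dvd_one h3) hw.not_isUnit

lemma snd_dvd [IsDomain D] {w : D} (hw : Prime w) (t t' : T3 w)
    (h : mk3 w (C (X 0)) * t = mk3 w (C (C w)) * t') : ∃ t2, t = mk3 w (C (C w)) * t2 := by
  obtain ⟨P, rfl⟩ := mk3_surj w t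
  obtain ⟨P', rfl⟩ := mk3_surj w t'
  have h1 : mk3 w (C (X 0) * P - C (C w) * P') = 0 := by rw [map_sub, map_mul, map_mul, h, sub_self]
  obtain ⟨r, hr⟩ := (mk3_eq_zero w _).mp h1
  let D' := D ⧸ Ideal.span {w}
  have : (Ideal.span {w}).IsPrime := (Ideal.span_singleton_prime hw.ne_zero).mpr hw
  let π : D →+* D' := Ideal.Quotient.mk _
  have hπw : π w = 0 := Ideal.Quotient.eq_zero_iff_mem.mpr (Ideal.mem_span_singleton_self w)
  let Φ : P3 D →+* P3 D' := MvPolynomial.map (MvPolynomial.map π)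
  have hΦs : Function.Surjective Φ :=
    map_surjective _ (map_surjective _ Ideal.Quotient.mk_surjective)
  have hΦF : Φ (FF w) = C 0 * X 0 + C (xi D') * X 1 + C (eta D') * X 2 := by
    simp [Φ, FF, xi, eta, hπw]
  have h2 : (C (X 0) : P3 D') * Φ P = Φ (FF w) * Φ r := by
    have := congrArg Φ hr
    rw [map_sub, map_mul, map_mul, map_mul] at this
    simpa [Φ, hπw] using this
  have hX : Prime (C (X 0) : P3 D') := (MvPolynomial.prime_C_iff (Fin 3)).mpr X_prime
  have hnd : ¬ (C (X 0) : P3 D') ∣ Φ (FF w) := by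
    intro hd
    have h3 := (C_dvd_iff_dvd_coeff _ _).mp hd (Finsupp.single 1 1)
    rw [hΦF, (coeff_lin _ _ _).2] at h3
    have h4 := map_dvd (eval (![0, 1, 0] : Fin 3 → D')) h3
    simp [xi] at h4
  have h3 : (C (X 0) : P3 D') ∣ Φ r := (hX.dvd_or_dvd ⟨_, h2.symm⟩).resolve_left hnd
  obtain ⟨r', hr'⟩ := h3
  obtain ⟨r'', rfl⟩ := hΦs r'
  have h4 : Φ (P - FF w * r'') = 0 := by
    apply mul_left_cancel₀ hX.ne_zero
    rw [map_sub, map_mul, mul_sub, h2, hr']; ring
  have h5 : (C (C w) : P3 D) ∣ P - FF w * r'' := by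
    rw [C_dvd_iff_dvd_coeff]
    intro α
    rw [C_dvd_iff_dvd_coeff]
    intro β
    have := congrArg (fun Q : P3 D' => coeff β (coeff α Q)) h4
    simp only [Φ, coeff_map, coeff_zero] at this
    exact Ideal.mem_span_singleton.mp (Ideal.Quotient.eq_zero_iff_mem.mp this)
  obtain ⟨P2, hP2⟩ := h5
  refine ⟨mk3 w P2, ?_⟩
  have := congrArg (mk3 w) hP2
  rwa [map_sub, map_mul, mk3_FF, zero_mul, sub_zero, map_mul] at this

end Z

theorem nzd : NzdStmt := by
  intro D _ _ _ w μ hw
  have hF := FF_prime hw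
  have : (Ideal.span {FF w}).IsPrime := (Ideal.span_singleton_prime hF.ne_zero).mpr hF
  have hCw : Prime (C w : BB D) := (MvPolynomial.prime_C_iff (Fin 3)).mpr hw
  have hCCw : Prime (Polynomial.C (C w) : Polynomial (BB D)) := Polynomial.prime_C_iff.mpr hCw
  have hCCCw : Prime (Polynomial.C (Polynomial.C (C w)) : Pm D) := Polynomial.prime_C_iff.mpr hCCw
  constructor
  · intro c x hc hcx
    have h1 : c.1.1 ≠ 0 := by
      intro h0
      have := dpart_fst w μ c
      rw [h0] at this
      simp only [Polynomial.coeff_zero] at this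
      exact hc (C_injective (Fin 3) D (by rw [← this, map_zero]))
    have h2 : c.1.2 ≠ 0 := by
      intro h0
      apply hc
      rw [dpart_def, h0, map_zero, map_zero]
    have e1 : c.1.1 * x.1.1 = 0 := congrArg (fun z : TT w μ => z.1.1) hcx
    have e2 : c.1.2 * x.1.2 = 0 := congrArg (fun z : TT w μ => z.1.2) hcx
    exact TT_ext w μ ((mul_eq_zero.mp e1).resolve_left h1) ((mul_eq_zero.mp e2).resolve_left h2)
  · rintro t ⟨t', ht'⟩
    have e1 : (yT w μ 0).1.1 * t.1.1 = Polynomial.C (Polynomial.C (C w)) * t'.1.1 :=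
      congrArg (fun z : TT w μ => z.1.1) ht'
    have e2 : mk3 w (C (X 0)) * t.1.2 = mk3 w (C (C w)) * t'.1.2 :=
      congrArg (fun z : TT w μ => z.1.2) ht'
    obtain ⟨t2, ht2⟩ := snd_dvd hw _ _ e2
    have hnd : ¬ (Polynomial.C (Polynomial.C (C w)) : Pm D) ∣ (yT w μ 0).1.1 := by
      intro hd
      have h3 := (Polynomial.C_dvd_iff_dvd_coeff _ _).mp hd 0
      have h4 := (Polynomial.C_dvd_iff_dvd_coeff _ _).mp h3 1
      have h5 := (C_dvd_iff_dvd_coeff _ _).mp h4 (Finsupp.single 0 1)
      rw [yT, sec_fst] at h5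
      simp [Polynomial.coeff_monomial] at h5
      exact hw.not_isUnit (isUnit_of_dvd_one h5)
    obtain ⟨t1, ht1⟩ := (hCCCw.dvd_or_dvd ⟨_, e1⟩).resolve_left hnd
    obtain ⟨b1, b2, b3⟩ := t.2
    have hmem : (t1, t2) ∈ TT w μ := by
      refine ⟨fun i j β hβ => ?_, ?_, ?_⟩
      · apply b1 i j
        rw [ht1, Polynomial.coeff_C_mul, Polynomial.coeff_C_mul, coeff_C_mul]
        exact mul_ne_zero hw.ne_zero hβ
      · apply mul_left_cancel₀ hCCw.ne_zero
        rw [ht1, Polynomial.map_mul, Polynomial.coeff_C_mul, Polynomial.map_mul] at b2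
        simpa using b2
      · apply mul_left_cancel₀ hCCw.ne_zero
        rw [ht1, ht2, Polynomial.coeff_C_mul, map_mul, map_mul] at b3
        simpa using b3
    exact ⟨⟨(t1, t2), hmem⟩, TT_ext w μ ht1 ht2⟩

end Pool.Agent.MP_961ca8_al.H28
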