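import Pool.Agent.MP_961ca8_al.H18.Iface

/-!
Module A: from `Core` and the hiding subring to the final statement.
-/

namespace Pool.Agent.MP_961ca8_al.H28

open Cardinal H18

section Frob

variable {R S : Type} [CommRing R] [CommRing S]

lemma pow_mem_frobPow {I : Ideal R} {x : R} (hx : x ∈ I) (q : ℕ) : x ^ q ∈ frobPow I q :=
  Ideal.subset_span ⟨x, hx, rfl⟩

lemma map_frobPow_le (f : R →+* S) (I : Ideal R) (q : ℕ) :
    (frobPow I q).map f ≤ frobPow (I.map f) q := by
  rw [Ideal.map_le_iff_le_comap]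
  unfold frobPow
  rw [Ideal.span_le]
  rintro _ ⟨x, hx, rfl⟩
  simp only [SetLike.mem_coe, Ideal.mem_comap, map_pow]
  exact Ideal.subset_span ⟨f x, Ideal.mem_map_of_mem f hx, rfl⟩

lemma frobPow_map_le (p : ℕ) [Fact p.Prime] [CharP S p] (f : R →+* S) (I : Ideal R) (e : ℕ) :
    frobPow (I.map f) (p ^ e) ≤ (frobPow I (p ^ e)).map f := by
  conv_lhs => unfold frobPow
  rw [Ideal.span_le]
  rintro _ ⟨x, hx, rfl⟩
  simp only [SetLike.mem_coe] at hx ⊢
  have hq : p ^ e ≠ 0 := pow_ne_zero _ (Fact.out : p.Prime).ne_zero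
  unfold Ideal.map at hx
  induction hx using Submodule.span_induction with
  | mem y hy =>
    obtain ⟨a, ha, rfl⟩ := hy
    rw [← map_pow]
    exact Ideal.mem_map_of_mem f (pow_mem_frobPow ha _)
  | zero => rw [zero_pow hq]; exact Ideal.zero_mem _
  | add a b _ _ ha hb => rw [add_pow_char_pow]; exact Ideal.add_mem _ ha hb
  | smul r a _ ha => rw [smul_eq_mul, mul_pow]; exact Ideal.mul_mem_left _ _ ha

end Frob

/-- The local form of `Core`. -/
structure CoreL (p : ℕ) (T : Type) [CommRing T] (Q : Ideal T) (s w : T) : Prop where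
  noeth : IsNoetherianRing T
  char : CharP T p
  loc : ∀ a : T, IsUnit a ∨ IsUnit (1 - a)
  Qprime : Q.IsPrime
  sunit : ∀ z : T, IsUnit (1 - s * z)
  sQ : s ∉ Q
  wunit : ∀ z : T, IsUnit (1 - w * z)
  wQ : w ∉ Q
  nzd : ∀ c : T, c ∉ Q → ∀ x : T, c * x = 0 → x = 0
  card1 : ℵ₀ < Cardinal.mk (T ⧸ Q)
  card2 : Cardinal.mk T ≤ Cardinal.mk (T ⧸ Q)
  tcl : ∀ (J : Ideal T) (c f : T), c ∉ Q →
    (∃ e₀ : ℕ, ∀ e : ℕ, e₀ ≤ e → c * f ^ p ^ e ∈ frobPow J (p ^ e)) → f ∈ J
  fail : ∃ (I : Ideal T) (u : T) (L : ℕ), w ^ L ∈ I ∧ (∀ n : ℕ, s ^ n * u ∉ I) ∧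
    ∀ e : ℕ, ∃ n : ℕ, s ^ n * w * u ^ p ^ e ∈ frobPow I (p ^ e)

lemma mem_of_forall_sup {T : Type} [CommRing T] [IsNoetherianRing T] [IsLocalRing T]
    (J : Ideal T) (s f : T) (hs : s ∈ IsLocalRing.maximalIdeal T)
    (h : ∀ N : ℕ, f ∈ J ⊔ Ideal.span {s ^ N}) : f ∈ J := by
  have hne : (Ideal.span {s} : Ideal T) ≠ ⊤ := by
    intro ht
    have : (Ideal.span {s} : Ideal T) ≤ IsLocalRing.maximalIdeal T := by
      rwa [Ideal.span_singleton_le_iff_mem]
    rw [ht] at this
    exact (IsLocalRing.maximalIdeal.isMaximal T).ne_top (top_le_iff.mp this)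
  have key := Ideal.iInf_pow_smul_eq_bot_of_isLocalRing (M := T ⧸ J) (Ideal.span {s}) hne
  rw [← Ideal.Quotient.eq_zero_iff_mem]
  have : Ideal.Quotient.mk J f ∈
      (⨅ i : ℕ, (Ideal.span {s} : Ideal T) ^ i • ⊤ : Submodule T (T ⧸ J)) := by
    rw [Submodule.mem_iInf]
    intro N
    obtain ⟨a, ha, b, hb, rfl⟩ := Submodule.mem_sup.mp (h N)
    rw [map_add, Ideal.Quotient.eq_zero_iff_mem.mpr ha, zero_add]
    have hb' : b ∈ (Ideal.span {s} : Ideal T) ^ N := by rwa [Ideal.span_singleton_pow]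
    have : Ideal.Quotient.mk J b = b • (1 : T ⧸ J) := by
      rw [Algebra.smul_def, mul_one]; rfl
    rw [this]
    exact Submodule.smul_mem_smul hb' Submodule.mem_top
  rw [key] at this
  exact (Submodule.mem_bot T).mp this

lemma phi_frob {T : Type} [CommRing T] (I K : Ideal T) (q : ℕ) (φ : T →+ T)
    (hφ : ∀ r x : T, φ (r ^ q * x) - r * φ x ∈ K) (y : T) (hy : y ∈ frobPow I q) :
    ∀ x : T, φ (y * x) ∈ I ⊔ K := by
  unfold frobPow at hy
  induction hy using Submodule.span_induction with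
  | mem y hy =>
    obtain ⟨a, ha, rfl⟩ := hy
    intro x
    have h1 : φ (a ^ q * x) = a * φ x + (φ (a ^ q * x) - a * φ x) := by ring
    show φ (a ^ q * x) ∈ _
    rw [h1]
    exact Submodule.add_mem_sup (Ideal.mul_mem_right _ _ ha) (hφ a x)
  | zero => intro x; rw [zero_mul, map_zero]; exact Ideal.zero_mem _
  | add a b _ _ ha hb => intro x; rw [add_mul, map_add]; exact Ideal.add_mem _ (ha x) (hb x)
  | smul r a _ ha =>
    intro x
    have : r • a * x = a * (r * x) := by rw [smul_eq_mul]; ring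
    rw [this]; exact ha _

theorem coreL_of_core (p : ℕ) (hp : p.Prime) (T : Type) [CommRing T] (Q m : Ideal T) (s w : T)
    (h : Core p T Q m s w) :
    ∃ (T' : Type) (_ : CommRing T') (Q' : Ideal T') (s' w' : T'), CoreL p T' Q' s' w' := by
  have := h.mmax
  have := h.noeth
  have := h.char
  have : Fact p.Prime := ⟨hp⟩
  let T' := Localization.AtPrime m
  let ι : T →+* T' := algebraMap T T'
  have hM : m.primeCompl ≤ nonZeroDivisors T := by
    intro c hc
    have hcQ : c ∉ Q := fun hq => hc (h.Qle hq)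
    rw [mem_nonZeroDivisors_iff_left]
    exact fun x hx => h.nzd c hcQ x hx
  have hinj : Function.Injective ι := IsLocalization.injective T' hM
  have hdisj : Disjoint (m.primeCompl : Set T) (Q : Set T) := by
    rw [Set.disjoint_left]
    intro c hc hq
    exact hc (h.Qle hq)
  have hunder : (Q.map ι).comap ι = Q :=
    IsLocalization.under_map_of_isPrime_disjoint m.primeCompl T' h.Qprime hdisj
  have hQmem : ∀ x : T, ι x ∈ Q.map ι ↔ x ∈ Q := by
    intro x
    rw [← Ideal.mem_comap, hunder]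
  have hchar : CharP T' p := charP_of_injective_ringHom hinj p
  have hnoeth : IsNoetherianRing T' := IsLocalization.isNoetherianRing m.primeCompl T' h.noeth
  have hmax : ∀ x : T, x ∈ m → ι x ∈ IsLocalRing.maximalIdeal T' := fun x hx =>
    (IsLocalization.AtPrime.to_map_mem_maximal_iff T' m x).mpr hx
  have hunit : ∀ x : T, x ∉ m → IsUnit (ι x) := fun x hx =>
    (IsLocalization.AtPrime.isUnit_to_map_iff T' m x).mpr hx
  have hone : ∀ x : T, x ∈ m → ∀ z : T', IsUnit (1 - ι x * z) := by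
    intro x hx z
    exact IsLocalRing.isUnit_one_sub_self_of_mem_nonunits _
      (Ideal.mul_mem_right z (IsLocalRing.maximalIdeal T') (hmax x hx))
  have hle : Cardinal.mk (T ⧸ Q) ≤ Cardinal.mk (T' ⧸ Q.map ι) :=
    Cardinal.mk_le_of_injective
      (Ideal.quotientMap_injective' (I := Q.map ι) (J := Q) (f := ι) (H := hunder.ge) hunder.le)
  have hrep : ∀ x : T', ∃ (a : T) (v : T'), IsUnit v ∧ x = ι a * v := by
    intro x
    obtain ⟨a, σ, rfl⟩ := IsLocalization.exists_mk'_eq m.primeCompl x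
    refine ⟨a, IsLocalization.mk' T' 1 σ, ?_, IsLocalization.mk'_eq_mul_mk'_one a σ⟩
    exact IsUnit.of_mul_eq_one (algebraMap T T' σ) (by
      rw [IsLocalization.mk'_spec, map_one])
  refine ⟨T', inferInstance, Q.map ι, ι s, ι w, hnoeth, hchar,
    IsLocalRing.isUnit_or_isUnit_one_sub_self,
    IsLocalization.isPrime_of_isPrime_disjoint m.primeCompl T' Q h.Qprime hdisj,
    hone s h.smem, fun hh => h.sQ ((hQmem s).mp hh), hone w h.wmem,
    fun hh => h.wQ ((hQmem w).mp hh), ?_, h.card1.trans_le hle,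
    ((IsLocalization.cardinalMk_le (L := T') m.primeCompl).trans h.card2).trans hle, ?_, ?_⟩
  · intro c hc x hx
    obtain ⟨c1, v, hv, rfl⟩ := hrep c
    obtain ⟨x1, v', hv', rfl⟩ := hrep x
    have hc1 : c1 ∉ Q := fun hq => hc (Ideal.mul_mem_right _ _ ((hQmem c1).mpr hq))
    have h0 : ι (c1 * x1) * (v * v') = 0 := by rw [map_mul, ← hx]; ring
    have h1 : ι (c1 * x1) = 0 := (hv.mul hv').mul_left_eq_zero.mp h0
    have h2 : c1 * x1 = 0 := hinj (by rw [h1, map_zero])
    rw [h.nzd c1 hc1 x1 h2, map_zero, zero_mul]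
  · rintro J c f hc ⟨e₀, he₀⟩
    obtain ⟨c1, v, hv, rfl⟩ := hrep c
    obtain ⟨f1, v', hv', rfl⟩ := hrep f
    have hc1 : c1 ∉ Q := fun hq => hc (Ideal.mul_mem_right _ _ ((hQmem c1).mpr hq))
    refine Ideal.mul_mem_right _ _ ?_
    have hJ : (J.comap ι).map ι = J := IsLocalization.map_under m.primeCompl T' J
    refine mem_of_forall_sup J (ι s) (ι f1) (hmax s h.smem) fun N => ?_
    obtain ⟨e, he, φ, hφ, hφc⟩ := h.split c1 hc1 N e₀
    have h1 := he₀ e he
    have h2 : ι (c1 * f1 ^ p ^ e) ∈ (frobPow (J.comap ι) (p ^ e)).map ι := by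
      apply frobPow_map_le p ι (J.comap ι) e
      rw [hJ]
      have : ι c1 * v * (ι f1 * v') ^ p ^ e = (v * v' ^ p ^ e) * ι (c1 * f1 ^ p ^ e) := by
        rw [map_mul, map_pow, mul_pow]; ring
      rw [this] at h1
      exact (Ideal.unit_mul_mem_iff_mem _ (hv.mul (hv'.pow _))).mp h1
    obtain ⟨σ, hσ, h3⟩ :=
      (IsLocalization.algebraMap_mem_map_algebraMap_iff m.primeCompl T' _ _).mp h2
    have hq : p ^ e ≠ 0 := pow_ne_zero _ hp.ne_zero
    have h4 := phi_frob (J.comap ι) _ (p ^ e) φ hφ _ h3 (σ ^ (p ^ e - 1))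
    have h5 : σ * (c1 * f1 ^ p ^ e) * σ ^ (p ^ e - 1) = (σ * f1) ^ p ^ e * c1 := by
      have : σ ^ p ^ e = σ * σ ^ (p ^ e - 1) := (mul_pow_sub_one hq σ).symm
      rw [mul_pow, this]; ring
    rw [h5] at h4
    have h6 : σ * f1 * φ c1 ∈ J.comap ι ⊔ Ideal.span {s ^ N} := by
      have := Ideal.sub_mem _ h4 (Ideal.mem_sup_right (hφ (σ * f1) c1))
      simpa using this
    have h7 := Ideal.mem_map_of_mem ι h6
    rw [Ideal.map_sup, hJ, Ideal.map_span, Set.image_singleton, map_pow] at h7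
    have h8 : ι (σ * f1 * φ c1) = (ι σ * ι (φ c1)) * ι f1 := by
      rw [map_mul, map_mul]; ring
    rw [h8] at h7
    exact (Ideal.unit_mul_mem_iff_mem _ ((hunit σ hσ).mul (hunit _ hφc))).mp h7
  · obtain ⟨I, u, L, hL, hu, hf⟩ := h.fail
    refine ⟨I.map ι, ι u, L, ?_, ?_, ?_⟩
    · rw [← map_pow]; exact Ideal.mem_map_of_mem ι hL
    · intro n hn
      rw [← map_pow, ← map_mul] at hn
      obtain ⟨σ, hσ, h3⟩ :=
        (IsLocalization.algebraMap_mem_map_algebraMap_iff m.primeCompl T' _ _).mp hn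
      exact hu n σ hσ (by rwa [mul_assoc])
    · intro e
      obtain ⟨n, hn⟩ := hf e
      refine ⟨n, map_frobPow_le ι I _ ?_⟩
      have := Ideal.mem_map_of_mem ι hn
      rwa [map_mul, map_mul, map_pow, map_pow] at this

section Sub

variable {T : Type} [CommRing T] {Q : Ideal T} {A : Subring T}

lemma decomp (h1 : ∀ a ∈ A, a ∈ Q → a = 0)
    (h2 : ∀ f : T, f ∉ Q → ∀ t : T, ∃ a ∈ A, ∃ z : T, t = a + f * z)
    (J : Ideal A) (g : A) (_hg : g ∈ J) (hg0 : g ≠ 0) (t : T) (ht : t ∈ J.map A.subtype) :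
    ∃ a ∈ J, ∃ z : T, t = (a : T) + g * z := by
  have hgQ : (g : T) ∉ Q := fun hq => hg0 (Subtype.ext (h1 g g.2 hq))
  unfold Ideal.map at ht
  induction ht using Submodule.span_induction with
  | mem y hy =>
    obtain ⟨a, ha, rfl⟩ := hy
    exact ⟨a, ha, 0, by simp⟩
  | zero => exact ⟨0, J.zero_mem, 0, by simp⟩
  | add a b _ _ ha hb =>
    obtain ⟨a1, ha1, z1, rfl⟩ := ha
    obtain ⟨a2, ha2, z2, rfl⟩ := hb
    exact ⟨a1 + a2, J.add_mem ha1 ha2, z1 + z2, by push_cast; ring⟩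
  | smul r a _ ha =>
    obtain ⟨a1, ha1, z1, rfl⟩ := ha
    obtain ⟨r1, hr1, z, rfl⟩ := h2 g hgQ r
    refine ⟨⟨r1, hr1⟩ * a1, J.mul_mem_left _ ha1, r1 * z1 + z * a1 + z * g * z1, ?_⟩
    rw [smul_eq_mul]; push_cast; ring

lemma contract (h1 : ∀ a ∈ A, a ∈ Q → a = 0)
    (h2 : ∀ f : T, f ∉ Q → ∀ t : T, ∃ a ∈ A, ∃ z : T, t = a + f * z)
    (h3 : ∀ f ∈ A, f ≠ 0 → ∀ z : T, f * z ∈ A → z ∈ A)
    (J : Ideal A) (g : A) (hg : g ∈ J) (hg0 : g ≠ 0) (x : A) (hx : (x : T) ∈ J.map A.subtype) :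
    x ∈ J := by
  obtain ⟨a, ha, z, hz⟩ := decomp h1 h2 J g hg hg0 x hx
  have hzA : z ∈ A := by
    refine h3 g g.2 (fun h => hg0 (Subtype.ext h)) z ?_
    have : (g : T) * z = x - a := by rw [hz]; ring
    rw [this]
    exact A.sub_mem x.2 a.2
  have : x = a + g * ⟨z, hzA⟩ := Subtype.ext (by push_cast; exact hz)
  rw [this]
  exact J.add_mem ha (J.mul_mem_right _ hg)

end Sub

theorem final_of_coreL (hide : HideStmt) (p : ℕ) (hp : p.Prime) (T : Type) [CommRing T]
    (Q : Ideal T) (s w : T) (h : CoreL p T Q s w) : Final p := by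
  classical
  have := h.noeth
  have := h.char
  have : Fact p.Prime := ⟨hp⟩
  obtain ⟨A, h1, h2, h3⟩ := hide T Q h.Qprime h.nzd h.card1 h.card2
  have hQ1 : (1 : T) ∉ Q := (Ideal.ne_top_iff_one Q).mp h.Qprime.ne_top
  have : Nontrivial T := ⟨⟨1, 0, fun h10 => hQ1 (h10 ▸ Q.zero_mem)⟩⟩
  have hnQ : ∀ a : A, a ≠ 0 → (a : T) ∉ Q := fun a ha hq => ha (Subtype.ext (h1 a a.2 hq))
  have : NoZeroDivisors A := ⟨fun {a b} hab => by
    by_cases ha : a = 0
    · exact Or.inl ha
    · refine Or.inr (Subtype.ext (h.nzd a (hnQ a ha) b ?_))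
      have := congrArg Subtype.val hab
      simpa using this⟩
  have hdom : IsDomain A := NoZeroDivisors.to_isDomain A
  have hunit : ∀ a : A, IsUnit (a : T) → IsUnit a := by
    intro a ha
    obtain ⟨b, hb⟩ := ha.exists_right_inv
    have hbA : b ∈ A := h3 a a.2 ha.ne_zero b (hb ▸ A.one_mem)
    exact IsUnit.of_mul_eq_one ⟨b, hbA⟩ (Subtype.ext hb)
  have hloc : IsLocalRing A := IsLocalRing.of_isUnit_or_isUnit_one_sub_self fun a => by
    rcases h.loc a with ha | ha
    · exact Or.inl (hunit a ha)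
    · exact Or.inr (hunit (1 - a) (by simpa using ha))
  have hnoeth : IsNoetherianRing A := by
    rw [isNoetherianRing_iff_ideal_fg]
    intro J
    by_cases hJ : J = ⊥
    · rw [hJ]; exact Submodule.fg_bot
    obtain ⟨g, hg, hg0⟩ := Submodule.exists_mem_ne_zero_of_ne_bot hJ
    have hfg : (Submodule.span T (A.subtype '' (J : Set A))).FG :=
      IsNoetherian.noetherian _
    obtain ⟨s', hs', hspan⟩ := (Submodule.fg_span_iff_fg_span_finset_subset _).mp hfg
    obtain ⟨S, hS, rfl⟩ := Finset.subset_set_image_iff.mp hs'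
    refine ⟨insert g S, le_antisymm ?_ ?_⟩
    · rw [Ideal.span_le]
      intro x hx
      simp only [Finset.coe_insert, Set.mem_insert_iff] at hx
      rcases hx with rfl | hx
      · exact hg
      · exact hS hx
    · intro x hx
      refine contract h1 h2 h3 _ g (Ideal.subset_span (by simp)) hg0 x ?_
      have hx' : (x : T) ∈ Submodule.span T (A.subtype '' (J : Set A)) :=
        Submodule.subset_span ⟨x, hx, rfl⟩
      rw [hspan] at hx'
      refine Submodule.span_le.mpr ?_ hx'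
      intro y hy
      simp only [Finset.coe_image] at hy
      obtain ⟨a, ha, rfl⟩ := hy
      exact Ideal.mem_map_of_mem _ (Ideal.subset_span (by simp [Finset.mem_coe.mp ha]))
  have hchar : CharP A p := inferInstance
  refine ⟨A, inferInstance, hnoeth, hchar, hdom, hloc, ?_, ?_⟩
  · intro J
    ext f
    constructor
    · rintro ⟨c, hc, e₀, he₀⟩
      have hc0 : c ≠ 0 := by
        intro h0
        refine hc ⊥ ?_ (h0 ▸ Ideal.zero_mem _)
        rw [IsDomain.minimalPrimes_eq_singleton_bot]; rfl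
      have hf : (f : T) ∈ J.map A.subtype := by
        refine h.tcl _ c f (hnQ c hc0) ⟨e₀, fun e he => map_frobPow_le _ _ _ ?_⟩
        have := Ideal.mem_map_of_mem A.subtype (he₀ e he)
        simpa using this
      by_cases hJ : J = ⊥
      · rw [hJ, Ideal.map_bot, Ideal.mem_bot] at hf
        have : f = 0 := Subtype.ext hf
        rw [this]; exact J.zero_mem
      · obtain ⟨g, hg, hg0⟩ := Submodule.exists_mem_ne_zero_of_ne_bot hJ
        exact contract h1 h2 h3 J g hg hg0 f hf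
    · intro hf
      refine ⟨1, fun P hP => ?_, 0, fun e _ => ?_⟩
      · exact (Ideal.ne_top_iff_one P).mp hP.1.1.ne_top
      · rw [one_mul]; exact pow_mem_frobPow hf _
  · intro hF
    obtain ⟨I, u, L, hL, hu, hf⟩ := h.fail
    have hsq : ∀ x : T, x ∉ Q → x ^ 2 ∉ Q := fun x hx hq => hx (h.Qprime.mem_of_pow_mem 2 hq)
    obtain ⟨s1, hs1, zs, hzs⟩ := h2 (s ^ 2) (hsq s h.sQ) s
    obtain ⟨c1, hc1, zw, hzw⟩ := h2 (w ^ 2) (hsq w h.wQ) w
    have es : s1 = (1 - s * zs) * s := by linear_combination -hzs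
    have ew : c1 = (1 - w * zw) * w := by linear_combination -hzw
    have us := h.sunit zs
    have uw := h.wunit zw
    set vs := 1 - s * zs with hvs
    set vw := 1 - w * zw with hvw
    let sA : A := ⟨s1, hs1⟩
    let cA : A := ⟨c1, hc1⟩
    have hs0 : sA ≠ 0 := by
      intro h0
      have : s1 = 0 := congrArg Subtype.val h0
      rw [es] at this
      exact h.sQ ((us.mul_right_eq_zero.mp this) ▸ Q.zero_mem)
    have hc0 : cA ≠ 0 := by
      intro h0
      have : c1 = 0 := congrArg Subtype.val h0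
      rw [ew] at this
      exact h.wQ ((uw.mul_right_eq_zero.mp this) ▸ Q.zero_mem)
    let g : A := cA ^ L
    have hg0 : g ≠ 0 := pow_ne_zero _ hc0
    have hgI : (g : T) ∈ I := by
      show ((cA ^ L : A) : T) ∈ I
      push_cast
      show c1 ^ L ∈ I
      rw [ew, mul_pow]
      exact I.mul_mem_left _ hL
    let IA : Ideal A := I.comap A.subtype
    have hgIA : g ∈ IA := hgI
    have hmap : IA.map A.subtype = I := by
      refine le_antisymm Ideal.map_comap_le fun t ht => ?_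
      obtain ⟨a, ha, z, rfl⟩ := h2 g (hnQ g hg0) t
      have haI : a ∈ I := by
        have := I.sub_mem ht (I.mul_mem_right z hgI)
        simpa using this
      exact Ideal.add_mem _ (Ideal.mem_map_of_mem A.subtype (x := ⟨a, ha⟩) haI)
        (Ideal.mul_mem_right _ _ (Ideal.mem_map_of_mem A.subtype hgIA))
    obtain ⟨u1, hu1, zu, hzu⟩ := h2 g (hnQ g hg0) u
    let uA : A := ⟨u1, hu1⟩
    have hnot : ∀ n : ℕ, sA ^ n * uA ∉ IA := by
      intro n hn
      have hn' : s1 ^ n * u1 ∈ I := by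
        have : ((sA ^ n * uA : A) : T) ∈ I := hn
        simpa using this
      apply hu n
      have : vs ^ n * (s ^ n * u) = s1 ^ n * u1 + s1 ^ n * zu * g := by
        rw [hzu, es, mul_pow]; ring
      refine (Ideal.unit_mul_mem_iff_mem _ (us.pow n)).mp ?_
      rw [this]
      exact I.add_mem hn' (I.mul_mem_left _ hgI)
    have hin : ∀ e : ℕ, ∃ n : ℕ, sA ^ n * (cA * uA ^ p ^ e) ∈ frobPow IA (p ^ e) := by
      intro e
      obtain ⟨n, hn⟩ := hf e
      refine ⟨n, contract h1 h2 h3 _ (g ^ p ^ e) (pow_mem_frobPow hgIA _) (pow_ne_zero _ hg0) _ ?_⟩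
      apply frobPow_map_le p A.subtype IA e
      rw [hmap]
      have e1 : u1 = u - g * zu := by rw [hzu]; ring
      have e2 : ((sA ^ n * (cA * uA ^ p ^ e) : A) : T) =
          (vs ^ n * vw) * (s ^ n * w * u ^ p ^ e) -
            (vs ^ n * vw * s ^ n * w * zu ^ p ^ e) * (g : T) ^ p ^ e := by
        push_cast
        show s1 ^ n * (c1 * u1 ^ p ^ e) = _
        rw [e1, sub_pow_char_pow, es, ew, mul_pow, mul_pow]
        ring
      rw [e2]
      exact Ideal.sub_mem _ (Ideal.mul_mem_left _ _ hn)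
        (Ideal.mul_mem_left _ _ (pow_mem_frobPow hgI _))
    let W : Submonoid A := Submonoid.powers sA
    have hW : W ≤ nonZeroDivisors A := powers_le_nonZeroDivisors_of_noZeroDivisors hs0
    have : IsDomain (Localization W) := IsLocalization.isDomain_localization hW
    let κ : A →+* Localization W := algebraMap A (Localization W)
    have hinj : Function.Injective κ := IsLocalization.injective (Localization W) hW
    have htc : κ uA ∈ tightClosure p (IA.map κ) := by
      refine ⟨κ cA, fun P hP => ?_, 0, fun e _ => ?_⟩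
      · rw [IsDomain.minimalPrimes_eq_singleton_bot, Set.mem_singleton_iff] at hP
        rw [hP, Ideal.mem_bot]
        intro h0
        exact hc0 (hinj (by rw [h0, map_zero]))
      · obtain ⟨n, hn⟩ := hin e
        apply map_frobPow_le κ IA
        rw [← map_pow, ← map_mul]
        exact (IsLocalization.algebraMap_mem_map_algebraMap_iff W (Localization W) _ _).mpr
          ⟨sA ^ n, ⟨n, rfl⟩, hn⟩
    rw [hF W (IA.map κ)] at htc
    obtain ⟨σ, ⟨n, rfl⟩, hn⟩ :=
      (IsLocalization.algebraMap_mem_map_algebraMap_iff W (Localization W) _ _).mp htc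
    exact hnot n hn

theorem asm : HideStmt → AsmStmt := by
  intro hide p T _ Q m s w hp h
  obtain ⟨T', _, Q', s', w', h'⟩ := coreL_of_core p hp T Q m s w h
  exact final_of_coreL hide p hp T' Q' s' w' h'

end Pool.Agent.MP_961ca8_al.H28
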